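import Mathlib
import Pool.Agent.Helper186.LMain

/-!
# Liouville manifolds whose core is a smooth Lagrangian submanifold

Every Liouville manifold whose core is a smooth closed Lagrangian submanifold `L` is equivalent,
as an exact symplectic manifold, to the cotangent bundle of `L` with its canonical one-form.
-/

open scoped Topology ContDiff Manifold
open Set Bundle

noncomputable section

namespace Pool.Agent.Results.MP_91769e_gt.LagrangianCore

/-! ### The cotangent bundle as a smooth manifold -/

section Cotangent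

variable (F : Type*) [NormedAddCommGroup F] [NormedSpace ℝ F]
  (L : Type*) [TopologicalSpace L] [ChartedSpace F L]

/-- The cotangent space of `L` at `q`. -/
def CotangentSpace (q : L) : Type _ := TangentSpace 𝓘(ℝ, F) q →L[ℝ] ℝ

/-- The topology of the cotangent space, from Mathlib. -/
@[instance_reducible] def topCotangentSpace (q : L) : TopologicalSpace (CotangentSpace F L q) :=
  (inferInstance : TopologicalSpace (TangentSpace 𝓘(ℝ, F) q →L[ℝ] ℝ))

attribute [instance] topCotangentSpace

/-- The cotangent bundle of `L`. -/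
abbrev CotangentBundle : Type _ := TotalSpace (F →L[ℝ] ℝ) (CotangentSpace F L)

/-- The topology of the cotangent bundle: the one of the Mathlib bundle of continuous linear
maps from the tangent bundle to the trivial line bundle. -/
@[instance_reducible] def topCotangentBundle [IsManifold 𝓘(ℝ, F) ∞ L] :
    TopologicalSpace (CotangentBundle F L) :=
  ContinuousLinearMap.topologicalSpaceTotalSpace (RingHom.id ℝ) F (TangentSpace 𝓘(ℝ, F)) ℝ
    (fun _ : L => ℝ)

attribute [instance] topCotangentBundle

/-- The fibre bundle structure of the cotangent bundle: the one of the Mathlib bundle of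
continuous linear maps from the tangent bundle to the trivial line bundle. -/
@[instance_reducible] def fibCotangentBundle [IsManifold 𝓘(ℝ, F) ∞ L] :
    FiberBundle (F →L[ℝ] ℝ) (CotangentSpace F L) :=
  ContinuousLinearMap.fiberBundle (RingHom.id ℝ) F (TangentSpace 𝓘(ℝ, F)) ℝ (fun _ : L => ℝ)

attribute [instance] fibCotangentBundle

/-- The model vector space `F × F^*` of the cotangent bundle. -/
def CotangentModel : Type _ := F × (F →L[ℝ] ℝ)

@[instance_reducible] def normCotangentModel : NormedAddCommGroup (CotangentModel F) :=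
  (inferInstance : NormedAddCommGroup (F × (F →L[ℝ] ℝ)))

attribute [instance] normCotangentModel

@[instance_reducible] def spaceCotangentModel : NormedSpace ℝ (CotangentModel F) :=
  (inferInstance : NormedSpace ℝ (F × (F →L[ℝ] ℝ)))

attribute [instance] spaceCotangentModel

/-- The smooth structure of the cotangent bundle: the one that Mathlib puts on the total space
of a smooth vector bundle. -/
@[instance_reducible] def chartedCotangentBundle [IsManifold 𝓘(ℝ, F) ∞ L] :
    ChartedSpace (CotangentModel F) (CotangentBundle F L) :=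
  FiberBundle.chartedSpace (F := F →L[ℝ] ℝ) (E := CotangentSpace F L) (HB := F)

attribute [instance] chartedCotangentBundle

/-- The model with corners of the cotangent bundle, without boundary. -/
def cotangentCorners : ModelWithCorners ℝ (CotangentModel F) (CotangentModel F) :=
  𝓘(ℝ, F).prod 𝓘(ℝ, F →L[ℝ] ℝ)

end Cotangent

/-! ### One-forms and their exterior derivative -/

section OneForms

variable {E : Type*} [NormedAddCommGroup E] [NormedSpace ℝ E] {H : Type*} [TopologicalSpace H]
  (I : ModelWithCorners ℝ E H) (X : Type*) [TopologicalSpace X] [ChartedSpace H X]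

/-- One-forms on `X`. -/
abbrev OneForm : Type _ := (x : X) → TangentSpace I x →L[ℝ] ℝ

variable {I X}

/-- The value of the one-form `α` on the tangent vector `v` at `x`. -/
def eval (α : OneForm I X) (x : X) (v : TangentSpace I x) : ℝ := α x v

/-- The one-form `α` written in the preferred chart `φ` at `x`: at the point `y` of the model
space `E` it is the pull back of `α` by `φ⁻¹`. -/
def formInChart (α : OneForm I X) (x : X) (y : E) : E →L[ℝ] ℝ :=
  (α ((extChartAt I x).symm y)).comp (mfderiv 𝓘(ℝ, E) I (extChartAt I x).symm y)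

/-- The derivative in the direction `u` of the coefficient `α v`, at `x`, in the preferred chart
at `x` (in which the tangent space at `x` is identified with `E`). -/
def coefficientDerivative (α : OneForm I X) (x : X) (u v : TangentSpace I x) : ℝ :=
  fderiv ℝ (formInChart α x) (extChartAt I x x) u v

/-- The exterior derivative `dα` at `x`, on the tangent vectors `u` and `v`. -/
def exteriorDerivative (α : OneForm I X) (x : X) (u v : TangentSpace I x) : ℝ :=
  coefficientDerivative α x u v - coefficientDerivative α x v u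

/-- The differential of a real valued function. -/
def differential (I : ModelWithCorners ℝ E H) (f : X → ℝ) : OneForm I X :=
  fun x => mfderiv I 𝓘(ℝ, ℝ) f x

variable {E' : Type*} [NormedAddCommGroup E'] [NormedSpace ℝ E'] {H' : Type*}
  [TopologicalSpace H'] {Y : Type*} [TopologicalSpace Y] [ChartedSpace H' Y]

/-- The derivative of the map `f` at `x`, applied to the tangent vector `v`. -/
def derivativeAt (I : ModelWithCorners ℝ E H) (J : ModelWithCorners ℝ E' H') (f : X → Y) (x : X)
    (v : TangentSpace I x) : TangentSpace J (f x) := mfderiv I J f x v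

/-- Equivalence of `(X, α)` and `(Y, β)` as exact symplectic manifolds: there is a
diffeomorphism `Φ` such that `Φ^* β - α` is the differential of a smooth function. -/
def ExactEquivalent {I : ModelWithCorners ℝ E H} {J : ModelWithCorners ℝ E' H'}
    (α : OneForm I X) (β : OneForm J Y) : Prop :=
  ∃ (Φ : Diffeomorph I J X Y ∞) (f : X → ℝ), ContMDiff I 𝓘(ℝ, ℝ) ∞ f ∧
    ∀ (x : X) (v : TangentSpace I x),
      eval β (Φ x) (derivativeAt I J Φ x v) - eval α x v = eval (differential I f) x v

end OneForms

/-- A one-form on `X` is smooth if it is a smooth section of the cotangent bundle of `X`. -/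
def SmoothOneForm {E : Type*} [NormedAddCommGroup E] [NormedSpace ℝ E]
    {X : Type*} [TopologicalSpace X] [ChartedSpace E X] [IsManifold 𝓘(ℝ, E) ∞ X]
    (α : OneForm 𝓘(ℝ, E) X) : Prop :=
  ContMDiff 𝓘(ℝ, E) (cotangentCorners E) ∞ (fun x => (⟨x, α x⟩ : CotangentBundle E X))

/-- The canonical one-form of the cotangent bundle: at the covector `ξ` it sends the tangent
vector `w` to `ξ (dπ w)`, where `π` is the projection to `L`. -/
def canonicalForm (F : Type*) [NormedAddCommGroup F] [NormedSpace ℝ F]
    (L : Type*) [TopologicalSpace L] [ChartedSpace F L] [IsManifold 𝓘(ℝ, F) ∞ L] :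
    OneForm (cotangentCorners F) (CotangentBundle F L) :=
  fun ξ => ContinuousLinearMap.comp (M₂ := TangentSpace 𝓘(ℝ, F) ξ.proj) (M₃ := ℝ) ξ.snd
    (mfderiv (cotangentCorners F) 𝓘(ℝ, F) (TotalSpace.proj : CotangentBundle F L → L) ξ)

/-! ### Liouville manifolds -/

section Liouville

variable {E : Type*} [NormedAddCommGroup E] [NormedSpace ℝ E]
  {X : Type*} [TopologicalSpace X] [ChartedSpace E X]

/-- Near the point `x` the set `S` is `{ρ ≤ 0}` for a smooth function `ρ` with `ρ x = 0` and
`dρ (Z) > 0` at `x`: the set `S` has smooth boundary at `x` and `Z` is outward transverse. -/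
def OutwardTransverseAt (Z : (x : X) → TangentSpace 𝓘(ℝ, E) x) (S : Set X) (x : X) : Prop :=
  ∃ ρ : X → ℝ, ContMDiffAt 𝓘(ℝ, E) 𝓘(ℝ, ℝ) ∞ ρ x ∧ ρ x = 0 ∧ (∀ᶠ y in 𝓝 x, y ∈ S ↔ ρ y ≤ 0) ∧
    0 < eval (differential 𝓘(ℝ, E) ρ) x (Z x)

/-- The two-form `dα` is nondegenerate. -/
def NondegenerateDerivative (α : OneForm 𝓘(ℝ, E) X) : Prop :=
  ∀ (x : X) (u : TangentSpace 𝓘(ℝ, E) x), (∀ v, exteriorDerivative α x u v = 0) → u = 0

end Liouville

/-- A Liouville manifold: a smooth manifold `X` without boundary, with a smooth one-form `form`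
such that `d form` is symplectic, whose Liouville vector field `field` is complete with flow
`flow`, and a compact domain `dom` with smooth boundary to which the Liouville field is outward
transverse, such that the forward flow of the boundary sweeps out the complement of the interior
of `dom`. -/
structure LiouvilleManifold (E : Type*) [NormedAddCommGroup E] [NormedSpace ℝ E]
    (X : Type*) [TopologicalSpace X] [ChartedSpace E X] [IsManifold 𝓘(ℝ, E) ∞ X] where
  /-- the Liouville one-form -/
  form : OneForm 𝓘(ℝ, E) X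
  form_smooth : SmoothOneForm form
  nondegenerate : NondegenerateDerivative form
  /-- the Liouville vector field -/
  field : (x : X) → TangentSpace 𝓘(ℝ, E) x
  field_spec : ∀ (x : X) (v : TangentSpace 𝓘(ℝ, E) x),
    exteriorDerivative form x (field x) v = eval form x v
  /-- the flow of the Liouville vector field, defined for all times -/
  flow : ℝ → X → X
  flow_zero : ∀ x, flow 0 x = x
  flow_spec : ∀ x, IsMIntegralCurve (I := 𝓘(ℝ, E)) (fun t => flow t x) field
  /-- the compact domain -/
  dom : Set X
  dom_compact : IsCompact dom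
  dom_boundary : ∀ x ∈ frontier dom, OutwardTransverseAt field dom x
  /-- the forward flow of the frontier sweeps out the complement of the interior -/
  dom_sweep : ∀ x ∉ interior dom, ∃ y ∈ frontier dom, ∃ t ≥ 0, flow t y = x

/-- The core: the intersection over `t > 0` of the sets `flow (-t) (dom)`. -/
def LiouvilleManifold.core {E : Type*} [NormedAddCommGroup E] [NormedSpace ℝ E]
    {X : Type*} [TopologicalSpace X] [ChartedSpace E X] [IsManifold 𝓘(ℝ, E) ∞ X]
    (𝓧 : LiouvilleManifold E X) : Set X :=
  ⋂ (t : ℝ) (_ : 0 < t), 𝓧.flow (-t) '' 𝓧.dom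

/-- The map `ι : L → X` is a smooth embedding with `ι^* (dα) = 0` and `dim X = 2 dim L`. -/
structure LagrangianEmbedding {E : Type*} [NormedAddCommGroup E]
    [NormedSpace ℝ E] {X : Type*} [TopologicalSpace X] [ChartedSpace E X]
    (α : OneForm 𝓘(ℝ, E) X) (F : Type*) [NormedAddCommGroup F] [NormedSpace ℝ F]
    {L : Type*} [TopologicalSpace L] [ChartedSpace F L] (ι : L → X) : Prop where
  smooth : ContMDiff 𝓘(ℝ, F) 𝓘(ℝ, E) ∞ ι
  embedding : Topology.IsEmbedding ι
  immersion : ∀ q, Function.Injective (derivativeAt 𝓘(ℝ, F) 𝓘(ℝ, E) ι q)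
  isotropic : ∀ (q : L) (u v : TangentSpace 𝓘(ℝ, F) q),
    exteriorDerivative α (ι q) (derivativeAt 𝓘(ℝ, F) 𝓘(ℝ, E) ι q u)
      (derivativeAt 𝓘(ℝ, F) 𝓘(ℝ, E) ι q v) = 0
  half_dimensional : Module.finrank ℝ E = 2 * Module.finrank ℝ F

section Proof

variable {E : Type*} [NormedAddCommGroup E] [NormedSpace ℝ E] [FiniteDimensional ℝ E]
  {X : Type*} [TopologicalSpace X] [ChartedSpace E X] [IsManifold 𝓘(ℝ, E) ∞ X]

lemma smoothForm_of_smoothOneForm {lam : OneForm 𝓘(ℝ, E) X}
    (h : SmoothOneForm lam) : Helper186.SmoothForm lam := by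
  intro V
  have h0 : ContMDiffAt 𝓘(ℝ, E) (Helper186.IC E) ∞
      (fun x => (⟨x, lam x⟩ : Helper186.Cotangent E X)) V.1 := h V.1
  have h1 : ContMDiffAt 𝓘(ℝ, E).tangent (Helper186.IC E) ∞
      (fun V : TangentBundle 𝓘(ℝ, E) X => (⟨V.1, lam V.1⟩ : Helper186.Cotangent E X)) V :=
    h0.comp V (contMDiff_proj _ V)
  exact Helper186.contMDiffAt_cot_pairing (J := 𝓘(ℝ, E).tangent)
    (f := fun V : TangentBundle 𝓘(ℝ, E) X => (⟨V.1, lam V.1⟩ : Helper186.Cotangent E X))
    (v := fun V => V.2) h1 contMDiffAt_id

/-- Conversion to the data used in the proof. -/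
def toLData (𝓧 : LiouvilleManifold E X) : Helper186.LData 𝓘(ℝ, E) X where
  lam := 𝓧.form
  hlam := smoothForm_of_smoothOneForm 𝓧.form_smooth
  hnd := 𝓧.nondegenerate
  Z := 𝓧.field
  hZ := 𝓧.field_spec
  φ := 𝓧.flow
  φ0 := 𝓧.flow_zero
  hφ := 𝓧.flow_spec
  X₀ := 𝓧.dom
  hc := 𝓧.dom_compact
  hb := fun x hx => by
    obtain ⟨ρ, h1, h2, h3, h4⟩ := 𝓧.dom_boundary x hx
    exact ⟨ρ, h1.mdifferentiableAt (by simp), h2, h3, h4⟩
  hs := 𝓧.dom_sweep

end Proof

/-- **Theorem.** A Liouville manifold whose core is a smooth closed Lagrangian submanifold `L` is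
equivalent, as an exact symplectic manifold, to the cotangent bundle of `L` with its canonical
one-form. -/
theorem result
    {E : Type*} [NormedAddCommGroup E] [NormedSpace ℝ E] [FiniteDimensional ℝ E]
    {X : Type*} [TopologicalSpace X] [T2Space X] [ChartedSpace E X] [IsManifold 𝓘(ℝ, E) ∞ X]
    {F : Type*} [NormedAddCommGroup F] [NormedSpace ℝ F] [FiniteDimensional ℝ F]
    {L : Type*} [TopologicalSpace L] [T2Space L] [CompactSpace L] [ChartedSpace F L]
    [IsManifold 𝓘(ℝ, F) ∞ L]
    (𝓧 : LiouvilleManifold E X) (ι : L → X) (hι : LagrangianEmbedding 𝓧.form F ι)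
    (hcore : range ι = 𝓧.core) :
    ExactEquivalent 𝓧.form (canonicalForm F L) := by
  have hcore' : range ι = (toLData 𝓧).core := by
    rw [hcore]
    ext x
    simp only [LiouvilleManifold.core, mem_iInter]
    constructor
    · intro h t ht
      have h1 : x ∈ (toLData 𝓧).φ (-t) '' (toLData 𝓧).X₀ := h t ht
      rw [← (toLData 𝓧).K_eq] at h1
      exact h1
    · intro h t ht
      have h1 : x ∈ (toLData 𝓧).K t := h t ht
      rw [(toLData 𝓧).K_eq] at h1
      exact h1
  obtain ⟨Φ, f, hf, hΦ⟩ := (toLData 𝓧).main hι.smooth hι.embedding hι.immersion hcore'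
    hι.isotropic hι.half_dimensional
  refine ⟨Φ, f, hf, fun x v => ?_⟩
  have h1 := hΦ x v
  rw [one_mul] at h1
  exact sub_eq_iff_eq_add'.2 h1

end Pool.Agent.Results.MP_91769e_gt.LagrangianCore
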